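import Pool.Agent.Helper3.EL.Defs
import Pool.Agent.Helper90.TL.Avoid

/-!
# Project EL (MP_56afde), module EL-F: the kernel of a factorisation
-/

set_option autoImplicit false

namespace Pool.Agent.Helper3.EL

open Finset Pool.Agent.Lead.TB Pool.Agent.Lead.TB.Halves Pool.Agent.Helper84.TL

namespace Tr

theorem mem_fac {n : ℕ} {ι : Type} [Fintype ι] [DecidableEq ι] {G : Gr n}
    {σ : ι → Equiv.Perm (Fin n)} : σ ∈ fac ι G ↔
      (∀ i r, σ i r ∈ G r) ∧ ∀ i j, i ≠ j → ∀ r, σ i r ≠ σ j r := by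
  unfold fac
  simp only [mem_filter, mem_univ, true_and]

theorem KK_pos (k : ℕ) : 0 < KK k := by
  unfold KK
  positivity

theorem KK_zero : KK 0 = 1 := by
  simp [KK]

theorem KK_succ (k : ℕ) : ((((2 * 2 ^ k).factorial : ℝ) /
    (2 ^ (2 ^ k) * ((2 ^ k).factorial : ℝ) ^ 2)) ^ 2) * (KK k * KK k) = KK (k + 1) := by
  unfold KK
  have h1 : (2 : ℕ) ^ (k + 1) = 2 * 2 ^ k := by ring
  have h2 : ((2 : ℝ) ^ (k + 1)) = 2 * 2 ^ k := by ring
  rw [h1, h2, mul_pow (2 : ℝ) ((2 : ℝ) ^ k) (2 * 2 ^ k)]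
  have h3 : ((2 : ℝ) ^ k) ^ (2 * 2 ^ k) = (((2 : ℝ) ^ k) ^ (2 ^ k)) ^ 2 := by
    rw [← pow_mul _ (2 ^ k) 2, mul_comm]
  have h4 : (2 : ℝ) ^ (2 * 2 ^ k) = (2 ^ (2 ^ k)) ^ 2 := by
    rw [← pow_mul _ (2 ^ k) 2, mul_comm]
  rw [h3, h4]
  have h5 : (((2 ^ k).factorial : ℕ) : ℝ) ≠ 0 := by positivity
  field_simp

/-- The union of the members of a family is regular. -/
theorem card_un {n : ℕ} {ι : Type} [Fintype ι] [DecidableEq ι] {f : ι → Equiv.Perm (Fin n)}
    (hf : ∀ i j, i ≠ j → ∀ r, f i r ≠ f j r) (r : Fin n) : (un f r).card = Fintype.card ι := by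
  unfold un
  rw [Finset.card_image_of_injective, Finset.card_univ]
  intro i j hij
  by_contra hne
  exact hf i j hne r hij

theorem card_un' {n : ℕ} {ι : Type} [Fintype ι] [DecidableEq ι] {f : ι → Equiv.Perm (Fin n)}
    (hf : ∀ i j, i ≠ j → ∀ r, f i r ≠ f j r) (c : Fin n) :
    (univ.filter fun r => c ∈ un f r).card = Fintype.card ι := by
  have h1 : (univ.filter fun r => c ∈ un f r) = univ.image fun i => (f i).symm c := by
    ext r
    simp only [un, mem_filter, mem_univ, true_and, mem_image]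
    constructor
    · rintro ⟨i, rfl⟩
      exact ⟨i, by simp⟩
    · rintro ⟨i, rfl⟩
      exact ⟨i, by simp⟩
  rw [h1, Finset.card_image_of_injective, Finset.card_univ]
  intro i j hij
  have h2 : (f i).symm c = (f j).symm c := hij
  by_contra hne
  apply hf i j hne ((f i).symm c)
  rw [Equiv.apply_symm_apply, h2, Equiv.apply_symm_apply]

theorem mem_un {n : ℕ} {ι : Type} [Fintype ι] {f : ι → Equiv.Perm (Fin n)} {r c : Fin n} :
    c ∈ un f r ↔ ∃ i, f i r = c := by
  simp [un]

theorem un_eq {n k : ℕ} {G : Gr n} (hG : Reg (2 ^ k) G) {f : (Fin k → Bool) → Equiv.Perm (Fin n)}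
    (hf : f ∈ fac (Fin k → Bool) G) : un f = G := by
  obtain ⟨h1, h2⟩ := mem_fac.1 hf
  funext r
  apply Finset.eq_of_subset_of_card_le
  · intro c hc
    obtain ⟨i, rfl⟩ := mem_un.1 hc
    exact h1 i r
  · rw [card_un h2 r, hG.1 r]
    simp

theorem cases_bits {k : ℕ} (x : Fin (k + 1) → Bool) :
    (∃ y : Fin k → Bool, x = Fin.cons true y) ∨ ∃ y : Fin k → Bool, x = Fin.cons false y := by
  cases h : x 0 with
  | true => exact Or.inl ⟨Fin.tail x, by rw [← h, Fin.cons_self_tail]⟩
  | false => exact Or.inr ⟨Fin.tail x, by rw [← h, Fin.cons_self_tail]⟩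

theorem lft_rgt_inj {α : Type} {k : ℕ} {f f' : (Fin (k + 1) → Bool) → α} (h1 : lft f = lft f')
    (h2 : rgt f = rgt f') : f = f' := by
  funext x
  rcases cases_bits x with ⟨y, rfl⟩ | ⟨y, rfl⟩
  · exact congrFun h1 y
  · exact congrFun h2 y

/-- The two halves of a factorisation. -/
theorem split {n k : ℕ} {G : Gr n}
    {f : (Fin (k + 1) → Bool) → Equiv.Perm (Fin n)} (hf : f ∈ fac (Fin (k + 1) → Bool) G) :
    un (lft f) ∈ half (2 ^ k) G ∧ lft f ∈ fac (Fin k → Bool) (un (lft f)) ∧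
      rgt f ∈ fac (Fin k → Bool) (fun r => G r \ un (lft f) r) := by
  obtain ⟨h1, h2⟩ := mem_fac.1 hf
  have hl : ∀ i j, i ≠ j → ∀ r, lft f i r ≠ lft f j r := fun i j hij r =>
    h2 _ _ (fun h => hij (Fin.cons_right_injective (α := fun _ => Bool) true h)) r
  have hr : ∀ i j, i ≠ j → ∀ r, rgt f i r ≠ rgt f j r := fun i j hij r =>
    h2 _ _ (fun h => hij (Fin.cons_right_injective (α := fun _ => Bool) false h)) r
  refine ⟨?_, ?_, ?_⟩
  · unfold half
    rw [mem_filter]
    refine ⟨mem_univ _, fun r c hc => ?_, fun r => ?_, fun c => ?_⟩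
    · obtain ⟨i, rfl⟩ := mem_un.1 hc
      exact h1 _ r
    · rw [card_un hl r]
      simp
    · rw [card_un' hl c]
      simp
  · exact mem_fac.2 ⟨fun i r => mem_un.2 ⟨i, rfl⟩, hl⟩
  · refine mem_fac.2 ⟨fun i r => ?_, hr⟩
    rw [mem_sdiff]
    refine ⟨h1 _ r, fun hc => ?_⟩
    obtain ⟨j, hj⟩ := mem_un.1 hc
    refine h2 _ _ ?_ r hj
    intro h
    have h3 := congrFun h 0
    simp at h3

theorem reg_half {n m : ℕ} {G K : Gr n} (hK : K ∈ half m G) : Reg m K := by
  unfold half at hK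
  rw [mem_filter] at hK
  exact ⟨hK.2.2.1, hK.2.2.2⟩

theorem reg_sdiff {n m : ℕ} {G K : Gr n} (hG : Reg (2 * m) G) (hK : K ∈ half m G) :
    Reg m (fun r => G r \ K r) := by
  unfold half at hK
  rw [mem_filter] at hK
  obtain ⟨-, h1, h2, h3⟩ := hK
  refine ⟨fun r => ?_, fun c => ?_⟩
  · rw [Finset.card_sdiff_of_subset (h1 r), hG.1 r, h2 r]
    omega
  · have h4 : (univ.filter fun r => c ∈ G r \ K r) =
        (univ.filter fun r => c ∈ G r) \ (univ.filter fun r => c ∈ K r) := by
      ext r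
      simp only [mem_filter, mem_univ, true_and, mem_sdiff]
    rw [h4, Finset.card_sdiff_of_subset, hG.2 c, h3 c]
    · omega
    · intro r hr
      rw [mem_filter] at hr ⊢
      exact ⟨mem_univ _, h1 r hr.2⟩

end Tr

/-- EL-F from EL-E. -/
theorem tree_of (hnode : ∀ (n m : ℕ) (G : Gr n), Reg (2 * m) G →
      ∑ K ∈ half m G, Real.exp (-(Real.log 2 * wK m G K)) ≤
        (((2 * m).factorial : ℝ) / (2 ^ m * (m.factorial : ℝ) ^ 2)) ^ (2 * n))
    {n : ℕ} : ∀ (k : ℕ) (G : Gr n) (_hG : Reg (2 ^ k) G),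
    ∑ f ∈ fac (Fin k → Bool) G, Real.exp (-(Real.log 2 * tw k f)) ≤ KK k ^ n := by
  intro k
  induction k with
  | zero =>
    intro G hG
    rw [Tr.KK_zero, one_pow]
    have h1 : (fac (Fin 0 → Bool) G).card ≤ 1 := by
      apply Finset.card_le_one.mpr
      intro f hf f' hf'
      have h2 := Tr.un_eq hG hf
      have h3 := Tr.un_eq hG hf'
      funext x
      apply Equiv.ext
      intro r
      have h4 : f x r ∈ G r := (Tr.mem_fac.1 hf).1 x r
      have h5 : f' x r ∈ G r := (Tr.mem_fac.1 hf').1 x r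
      have h6 := hG.1 r
      rw [pow_zero, Finset.card_eq_one] at h6
      obtain ⟨a, ha⟩ := h6
      rw [ha, mem_singleton] at h4 h5
      rw [h4, h5]
    have h2 : ∀ f ∈ fac (Fin 0 → Bool) G, Real.exp (-(Real.log 2 * tw 0 f)) = 1 := by
      intro f _
      simp [tw]
    rw [Finset.sum_congr rfl h2, Finset.sum_const, nsmul_eq_mul, mul_one]
    exact_mod_cast h1
  | succ k ih =>
    intro G hG
    have hG' : Reg (2 * 2 ^ k) G := by
      have h : 2 ^ (k + 1) = 2 * 2 ^ k := by ring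
      rwa [h] at hG
    rw [← Finset.sum_fiberwise_of_maps_to (g := fun f => un (lft f)) (t := half (2 ^ k) G)
      (fun f hf => (Tr.split hf).1)]
    have h1 : ∀ K ∈ half (2 ^ k) G,
        ∑ f ∈ (fac (Fin (k + 1) → Bool) G).filter (fun f => un (lft f) = K),
          Real.exp (-(Real.log 2 * tw (k + 1) f)) ≤
        Real.exp (-(Real.log 2 * wK (2 ^ k) G K)) * (KK k ^ n * KK k ^ n) := by
      intro K hK
      have h2 : ∀ f ∈ (fac (Fin (k + 1) → Bool) G).filter (fun f => un (lft f) = K),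
          Real.exp (-(Real.log 2 * tw (k + 1) f)) =
          Real.exp (-(Real.log 2 * wK (2 ^ k) G K)) *
            (Real.exp (-(Real.log 2 * tw k (lft f))) *
              Real.exp (-(Real.log 2 * tw k (rgt f)))) := by
        intro f hf
        rw [mem_filter] at hf
        rw [← Real.exp_add, ← Real.exp_add]
        congr 1
        have h3 : tw (k + 1) f = wK (2 ^ k) (un f) (un (lft f)) + tw k (lft f) + tw k (rgt f) :=
          rfl
        rw [h3, Tr.un_eq hG hf.1, hf.2]
        ring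
      rw [Finset.sum_congr rfl h2, ← Finset.mul_sum]
      apply mul_le_mul_of_nonneg_left _ (Real.exp_pos _).le
      have h4 := ih K (Tr.reg_half hK)
      have h5 := ih (fun r => G r \ K r) (Tr.reg_sdiff hG' hK)
      refine le_trans ?_ (mul_le_mul h4 h5 (Finset.sum_nonneg fun _ _ => (Real.exp_pos _).le)
        (pow_nonneg (Tr.KK_pos k).le n))
      rw [Finset.sum_mul_sum, ← Finset.sum_product']
      have h6 : ∑ f ∈ (fac (Fin (k + 1) → Bool) G).filter (fun f => un (lft f) = K),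
          Real.exp (-(Real.log 2 * tw k (lft f))) * Real.exp (-(Real.log 2 * tw k (rgt f))) =
          ∑ q ∈ ((fac (Fin (k + 1) → Bool) G).filter (fun f => un (lft f) = K)).image
            (fun f => (lft f, rgt f)),
            Real.exp (-(Real.log 2 * tw k q.1)) * Real.exp (-(Real.log 2 * tw k q.2)) := by
        rw [Finset.sum_image]
        intro f _ f' _ h
        have h7 := Prod.ext_iff.1 h
        exact Tr.lft_rgt_inj h7.1 h7.2
      rw [h6]
      apply Finset.sum_le_sum_of_subset_of_nonneg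
      · intro q hq
        obtain ⟨f, hf, rfl⟩ := mem_image.1 hq
        rw [mem_filter] at hf
        have h7 := Tr.split hf.1
        rw [hf.2] at h7
        exact mem_product.2 ⟨h7.2.1, h7.2.2⟩
      · intro q _ _
        positivity
    refine (Finset.sum_le_sum h1).trans ?_
    rw [← Finset.sum_mul]
    refine (mul_le_mul_of_nonneg_right (hnode n (2 ^ k) G hG')
      (by have := (Tr.KK_pos k).le; positivity)).trans (le_of_eq ?_)
    rw [pow_mul, ← mul_pow, ← mul_pow, Tr.KK_succ]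

/-- EL-F from EL-E, second part. -/
theorem gibbs_tree_of (hnode : ∀ (n m : ℕ) (G : Gr n), Reg (2 * m) G →
      ∑ K ∈ half m G, Real.exp (-(Real.log 2 * wK m G K)) ≤
        (((2 * m).factorial : ℝ) / (2 ^ m * (m.factorial : ℝ) ^ 2)) ^ (2 * n))
    {n k : ℕ} (E : Finset (Fin n → Equiv.Perm (Fin n))) (hE : E ⊆ ls n)
    (lam : (Fin k → Bool) ↪ Fin n) :
    ∑ L ∈ E, Real.log ((E ∩ cls L (rg lam)).card : ℝ) ≤
      ∑ L ∈ E, (n * Real.log (KK k) + Real.log 2 * tw k (fun x => L (lam x))) := by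
  classical
  have hself : ∀ L ∈ E, ∀ Z : Finset (Fin n), L ∈ cls L Z := fun L hL Z =>
    Avd.mem_cls.mpr ⟨hE hL, fun _ _ => rfl⟩
  have h1 := Avd.gibbs E (fun L L' => L' ∈ cls L (rg lam))
    (fun L hL L' hL' h => by
      rw [Avd.mem_cls] at h ⊢
      exact ⟨hE hL, fun s hs => (h.2 s hs).symm⟩)
    (fun L hL => hself L hL _)
    (fun L => Real.exp (-(n * Real.log (KK k) + Real.log 2 * tw k (fun x => L (lam x)))))
    (fun L _ => Real.exp_pos _) ?_
  · have h2 : ∀ L ∈ E, Real.log ((E.filter fun L' => L' ∈ cls L (rg lam)).card : ℝ) +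
        Real.log (Real.exp (-(n * Real.log (KK k) +
          Real.log 2 * tw k (fun x => L (lam x))))) =
        Real.log ((E ∩ cls L (rg lam)).card : ℝ) -
          (n * Real.log (KK k) + Real.log 2 * tw k (fun x => L (lam x))) := by
      intro L _
      rw [Real.log_exp, Finset.filter_mem_eq_inter]
      ring
    rw [Finset.sum_congr rfl h2, Finset.sum_sub_distrib] at h1
    linarith
  · intro b hb
    have hrg : (rg lam).card = 2 ^ k := by
      unfold rg
      rw [Finset.card_map, Finset.card_univ]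
      simp
    have hreg : Reg (2 ^ k) (sg b (rg lam)) := hrg ▸ Avd.reg_sg (hE hb) (rg lam)
    have h3 : ∀ a : Fin n → Equiv.Perm (Fin n),
        Real.exp (-(n * Real.log (KK k) + Real.log 2 * tw k (fun x => a (lam x)))) =
        Real.exp (-(n * Real.log (KK k))) *
          Real.exp (-(Real.log 2 * tw k (fun x => a (lam x)))) := by
      intro a
      rw [← Real.exp_add]
      congr 1
      ring
    simp only [h3]
    rw [← Finset.mul_sum]
    have h4 : ∑ a ∈ E.filter (fun a => a ∈ cls b (rg lam)),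
        Real.exp (-(Real.log 2 * tw k (fun x => a (lam x)))) ≤
        ∑ f ∈ fac (Fin k → Bool) (sg b (rg lam)), Real.exp (-(Real.log 2 * tw k f)) := by
      have h5 : ∑ a ∈ E.filter (fun a => a ∈ cls b (rg lam)),
          Real.exp (-(Real.log 2 * tw k (fun x => a (lam x)))) =
          ∑ f ∈ (E.filter (fun a => a ∈ cls b (rg lam))).image (fun a x => a (lam x)),
            Real.exp (-(Real.log 2 * tw k f)) := by
        rw [Finset.sum_image]
        intro a ha a' ha' h
        have ha := Avd.mem_cls.1 (mem_filter.1 ha).2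
        have ha' := Avd.mem_cls.1 (mem_filter.1 ha').2
        funext s
        by_cases hs : s ∈ rg lam
        · unfold rg at hs
          obtain ⟨x, -, rfl⟩ := Finset.mem_map.1 hs
          exact congrFun h x
        · rw [ha.2 s hs, ha'.2 s hs]
      rw [h5]
      apply Finset.sum_le_sum_of_subset_of_nonneg
      · intro f hf
        obtain ⟨a, ha, rfl⟩ := mem_image.1 hf
        have ha2 := (mem_filter.1 ha).2
        refine Tr.mem_fac.2 ⟨fun x r => ?_, fun x y hxy r => ?_⟩
        · rw [← Avd.sg_cls (hE hb) ha2]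
          unfold sg
          refine mem_image.2 ⟨lam x, ?_, rfl⟩
          unfold rg
          exact Finset.mem_map.2 ⟨x, mem_univ _, rfl⟩
        · exact Avd.mem_ls.1 (Avd.mem_cls.1 ha2).1 _ _ (fun h => hxy (lam.injective h)) r
      · intro f _ _
        exact (Real.exp_pos _).le
    have h6 := h4.trans (tree_of hnode k _ hreg)
    refine (mul_le_mul_of_nonneg_left h6 (Real.exp_pos _).le).trans (le_of_eq ?_)
    rw [Real.exp_neg, mul_comm (n : ℝ), Real.exp_mul, Real.exp_log (Tr.KK_pos k),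
      Real.rpow_natCast]
    exact inv_mul_cancel₀ (pow_pos (Tr.KK_pos k) n).ne'

end Pool.Agent.Helper3.EL
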